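import Pool.Agent.R489.HB.Stm

/-!
# Vertices and edges of a contraction
-/

set_option autoImplicit false

namespace Pool.Agent.R227.HB

open Finset Pool.Agent.R489.HB

variable {W : Type} [DecidableEq W]

theorem mem_edg {Φ : Finset (Finset W)} {e : Finset W} :
    e ∈ edg Φ ↔ ∃ f ∈ Φ, e ⊆ f ∧ e.card = 2 := by
  simp only [edg, mem_biUnion, mem_powersetCard]

theorem mem_vts {Φ : Finset (Finset W)} {w : W} : w ∈ vts Φ ↔ ∃ f ∈ Φ, w ∈ f := by
  simp only [vts, mem_biUnion, id]

theorem mem_contr {Φ : Finset (Finset W)} {u v : W} {g : Finset W} :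
    g ∈ contr u v Φ ↔ ∃ f ∈ Φ, ¬ ({u, v} ⊆ f) ∧ mv u v f = g := by
  simp only [contr, mem_image, mem_filter, and_assoc]

theorem mv_of_notMem {u v : W} {f : Finset W} (h : v ∉ f) : mv u v f = f := if_neg h

theorem mv_of_mem {u v : W} {f : Finset W} (h : v ∈ f) : mv u v f = insert u (f.erase v) :=
  if_pos h

theorem v_notMem_mv {u v : W} (huv : u ≠ v) (f : Finset W) : v ∉ mv u v f := by
  by_cases h : v ∈ f
  · rw [mv_of_mem h]
    simp [huv.symm]
  · rwa [mv_of_notMem h]

theorem mv_mono {u v : W} {e f : Finset W} (h : e ⊆ f) :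
    mv u v e ⊆ mv u v f := by
  by_cases h1 : v ∈ e
  · rw [mv_of_mem h1, mv_of_mem (h h1)]
    exact insert_subset_insert _ (erase_subset_erase _ h)
  · rw [mv_of_notMem h1]
    by_cases h2 : v ∈ f
    · rw [mv_of_mem h2]
      intro x hx
      refine mem_insert_of_mem (mem_erase.2 ⟨?_, h hx⟩)
      rintro rfl
      exact h1 hx
    · rwa [mv_of_notMem h2]

/-- an edge different from `uv` is in a face that does not contain `uv` -/
theorem exists_face {Φ : Finset (Finset W)} (h : IsTri Φ) {u v : W} (huv : u ≠ v)
    {e : Finset W} (he : e ∈ edg Φ) (hne : e ≠ {u, v}) :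
    ∃ f ∈ Φ, e ⊆ f ∧ ¬ ({u, v} ⊆ f) := by
  by_contra hcon
  push Not at hcon
  have hsub : fc Φ e ⊆ {e ∪ {u, v}} := by
    intro f hf
    rw [fc, mem_filter] at hf
    rw [mem_singleton]
    have h1 : e ∪ {u, v} ⊆ f := union_subset hf.2 (hcon f hf.1 hf.2)
    symm
    refine eq_of_subset_of_card_le h1 ?_
    rw [h.three f hf.1]
    by_contra hlt
    push Not at hlt
    have hc : e.card = 2 := by
      obtain ⟨g, _, _, hg⟩ := mem_edg.1 he
      exact hg
    have h2 : e = e ∪ {u, v} := eq_of_subset_of_card_le subset_union_left (by omega)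
    have h3 : ({u, v} : Finset W) ⊆ e := by
      rw [h2]
      exact subset_union_right
    have h4 : ({u, v} : Finset W).card = 2 := card_pair huv
    exact hne (eq_of_subset_of_card_le h3 (by omega)).symm
  have h1 := card_le_card hsub
  rw [h.two e he, card_singleton] at h1
  omega

theorem edg_contr {Φ : Finset (Finset W)} (h : IsTri Φ) {u v : W} (huv : u ≠ v) :
    edg (contr u v Φ) = ((edg Φ).erase {u, v}).image (mv u v) := by
  ext e'
  rw [mem_image]
  constructor
  · intro he'
    obtain ⟨g, hg, hsub, hcard⟩ := mem_edg.1 he'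
    obtain ⟨f, hf, hnf, rfl⟩ := mem_contr.1 hg
    have hve : v ∉ e' := fun h' => v_notMem_mv huv f (hsub h')
    have hvne : ∀ {s : Finset W}, v ∉ s → s ≠ {u, v} := by
      rintro s hs rfl
      exact hs (by simp)
    by_cases hv : v ∈ f
    · rw [mv_of_mem hv] at hsub
      have huf : u ∉ f := by
        intro hu
        apply hnf
        intro x hx
        rw [mem_insert, mem_singleton] at hx
        rcases hx with rfl | rfl
        · exact hu
        · exact hv
      by_cases hu : u ∈ e'
      · refine ⟨insert v (e'.erase u), mem_erase.2 ⟨?_, ?_⟩, ?_⟩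
        · intro heq
          have : u ∈ insert v (e'.erase u) := by
            rw [heq]
            simp
          simp [huv] at this
        · refine mem_edg.2 ⟨f, hf, ?_, ?_⟩
          · intro x hx
            rw [mem_insert] at hx
            rcases hx with rfl | hx
            · exact hv
            · have h1 := hsub (mem_of_mem_erase hx)
              rw [mem_insert] at h1
              rcases h1 with h1 | h1
              · exact absurd h1 (ne_of_mem_erase hx)
              · exact mem_of_mem_erase h1
          · rw [card_insert_of_notMem (fun h' => hve (mem_of_mem_erase h')),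
              card_erase_of_mem hu, hcard]
        · rw [mv_of_mem (mem_insert_self _ _), erase_insert (fun h' => hve (mem_of_mem_erase h')),
            insert_erase hu]
      · refine ⟨e', mem_erase.2 ⟨hvne hve, mem_edg.2 ⟨f, hf, ?_, hcard⟩⟩, mv_of_notMem hve⟩
        intro x hx
        have h1 := hsub hx
        rw [mem_insert] at h1
        rcases h1 with rfl | h1
        · exact absurd hx hu
        · exact mem_of_mem_erase h1
    · rw [mv_of_notMem hv] at hsub
      exact ⟨e', mem_erase.2 ⟨hvne hve, mem_edg.2 ⟨f, hf, hsub, hcard⟩⟩, mv_of_notMem hve⟩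
  · rintro ⟨e, he, rfl⟩
    rw [mem_erase] at he
    obtain ⟨f, hf, hsub, hnf⟩ := exists_face h huv he.2 he.1
    have hcard : e.card = 2 := by
      obtain ⟨g, _, _, hg⟩ := mem_edg.1 he.2
      exact hg
    refine mem_edg.2 ⟨mv u v f, mem_contr.2 ⟨f, hf, hnf, rfl⟩, mv_mono hsub, ?_⟩
    by_cases hv : v ∈ e
    · have hu : u ∉ e := by
        intro hu
        apply he.1
        symm
        refine eq_of_subset_of_card_le ?_ (by rw [card_pair huv, hcard])
        intro x hx
        rw [mem_insert, mem_singleton] at hx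
        rcases hx with rfl | rfl
        · exact hu
        · exact hv
      rw [mv_of_mem hv, card_insert_of_notMem (fun h' => hu (mem_of_mem_erase h')),
        card_erase_of_mem hv, hcard]
    · rw [mv_of_notMem hv, hcard]

theorem vts_contr {Φ : Finset (Finset W)} (h : IsTri Φ) {u v : W} (huv : u ≠ v)
    (he : {u, v} ∈ edg Φ) : vts (contr u v Φ) = (vts Φ).erase v := by
  ext w
  rw [mem_erase]
  constructor
  · intro hw
    obtain ⟨g, hg, hwg⟩ := mem_vts.1 hw
    obtain ⟨f, hf, hnf, rfl⟩ := mem_contr.1 hg
    refine ⟨?_, ?_⟩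
    · rintro rfl
      exact v_notMem_mv huv f hwg
    · by_cases hwu : w = u
      · subst hwu
        obtain ⟨f', hf', hs, _⟩ := mem_edg.1 he
        exact mem_vts.2 ⟨f', hf', hs (by simp)⟩
      · refine mem_vts.2 ⟨f, hf, ?_⟩
        by_cases hv : v ∈ f
        · rw [mv_of_mem hv, mem_insert] at hwg
          rcases hwg with h1 | h1
          · exact absurd h1 hwu
          · exact mem_of_mem_erase h1
        · rwa [mv_of_notMem hv] at hwg
  · rintro ⟨hwv, hw⟩
    obtain ⟨f, hf, hwf⟩ := mem_vts.1 hw
    have hne : ((f.erase v).erase w).Nonempty := by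
      rw [← card_pos]
      have h1 : f.card = 3 := h.three f hf
      have h2 : f.card - 1 ≤ (f.erase v).card := pred_card_le_card_erase
      have h3 : (f.erase v).card - 1 ≤ ((f.erase v).erase w).card := pred_card_le_card_erase
      omega
    obtain ⟨x, hx⟩ := hne
    rw [mem_erase, mem_erase] at hx
    have hwx : w ≠ x := fun h' => hx.1 h'.symm
    have hee : ({w, x} : Finset W) ∈ edg Φ := by
      refine mem_edg.2 ⟨f, hf, ?_, card_pair hwx⟩
      intro y hy
      rw [mem_insert, mem_singleton] at hy
      rcases hy with rfl | rfl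
      · exact hwf
      · exact hx.2.2
    have hv : v ∉ ({w, x} : Finset W) := by
      rw [mem_insert, mem_singleton]
      rintro (rfl | rfl)
      · exact hwv rfl
      · exact hx.2.1 rfl
    have h4 : ({w, x} : Finset W) ∈ edg (contr u v Φ) := by
      rw [edg_contr h huv, mem_image]
      refine ⟨{w, x}, mem_erase.2 ⟨?_, hee⟩, mv_of_notMem hv⟩
      intro heq
      rw [heq] at hv
      exact hv (by simp)
    obtain ⟨g, hg, hsub, _⟩ := mem_edg.1 h4
    exact mem_vts.2 ⟨g, hg, hsub (by simp)⟩

theorem CONE : S_CONE := by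
  intro W _ Φ u v h huv he _ _
  exact ⟨vts_contr h huv he, edg_contr h huv⟩

end Pool.Agent.R227.HB
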