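import Pool.Agent.R402.HB.Stm

/-! HB-DIFF, backup copy (helper227). -/

set_option autoImplicit false

open Filter Topology

namespace Pool.Agent.R227.HBR

open Pool.Agent.R402.HB

theorem diff_of (h1 : GenStm) (h2 : WeakStm) : DiffStm := by
  intro X _ _ _ hX S R z δ k hδ hk hB hdense σ C hC hσ ν x l
  set A : ℂ → X →L[ℂ] X := fun μ => S - μ • ContinuousLinearMap.id ℂ X with hA
  have hAv : ∀ (μ : ℂ) (v : X), A μ v = S v - μ • v := fun μ v => rfl
  have hcomm : ∀ (μ μ' : ℂ) (v : X), A μ (A μ' v) = A μ' (A μ v) := by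
    intro μ μ' v
    simp only [hAv, map_sub, map_smul, smul_sub]
    rw [smul_comm μ μ' v]
    abel
  have hAcont : Continuous A := continuous_const.sub (continuous_id.smul continuous_const)
  have hden : ∀ μ, DenseRange (A μ) := fun μ => hdense μ
  obtain ⟨η, hη, C', hC', hG⟩ := h1 X S R z δ k hδ hk hB (fun μ => A μ * A ν) ν
    (hAcont.mul continuous_const).continuousAt (by
      intro μ B hBS
      have hc : ∀ μ', B * A μ' = A μ' * B := by
        intro μ'
        ext v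
        have h3 : B (S v) = S (B v) := by
          have := congrArg (fun T : X →L[ℂ] X => T v) hBS
          simpa using this
        show B (A μ' v) = A μ' (B v)
        rw [hAv, hAv, map_sub, map_smul, h3]
      rw [← mul_assoc, hc μ, mul_assoc, hc ν, ← mul_assoc]) (by
      have h3 := (hden ν).comp (hden ν) (A ν).continuous
      exact h3)
  have hG' : ∀ μ : ℂ, ∃ u : X, ‖μ - ν‖ < η → A μ (A ν u) = R (A μ (A ν x)) ∧ ‖u‖ ≤ C' * ‖x‖ := by
    intro μ
    by_cases h : ‖μ - ν‖ < η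
    · obtain ⟨u, hu⟩ := hG μ h x
      exact ⟨u, fun _ => hu⟩
    · exact ⟨0, fun h' => absurd h' h⟩
  choose G hGe using hG'
  have inj : ∀ (μ : ℂ) (v w : X), A μ v = A μ w → v = w := by
    intro μ v w h
    have h3 : S (v - w) - μ • (v - w) = 0 := by
      rw [← hAv, map_sub, h, sub_self]
    exact sub_eq_zero.1 (hσ.inj μ _ h3)
  have heq : ∀ (μ : ℂ) (v : X), A μ (σ μ v) = R (A μ v) := fun μ v => hσ.eq μ v
  have ha : ∀ μ : ℂ, ‖μ - ν‖ < η → σ μ (A ν x) = A ν (G μ) := by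
    intro μ h
    apply inj μ
    rw [heq, (hGe μ h).1]
  have hb : ∀ μ : ℂ, ‖μ - ν‖ < η → A μ (G μ) = σ ν (A μ x) := by
    intro μ h
    apply inj ν
    rw [heq, hcomm ν μ (G μ), (hGe μ h).1, hcomm μ ν x]
  have hmain : ∀ μ : ℂ, ‖μ - ν‖ < η →
      σ μ (A ν x) = σ ν (A ν x) + (μ - ν) • (G μ - σ ν x) := by
    intro μ h
    have h3 : A ν (G μ) = A μ (G μ) + (μ - ν) • G μ := by
      rw [hAv, hAv, sub_smul]
      abel
    have h4 : A μ x = A ν x - (μ - ν) • x := by
      rw [hAv, hAv, sub_smul]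
      abel
    rw [ha μ h, h3, hb μ h, h4, map_sub, map_smul, smul_sub]
    abel
  have hev : ∀ᶠ μ in 𝓝 ν, ‖μ - ν‖ < η := by
    have h3 := Metric.ball_mem_nhds ν hη
    filter_upwards [h3] with μ hμ
    rwa [Metric.mem_ball, dist_eq_norm] at hμ
  have h0 : ‖ν - ν‖ < η := by simpa using hη
  have hweak : Tendsto (fun μ => l (G μ)) (𝓝 ν) (𝓝 (l (G ν))) := by
    refine h2 X hX (A ν) (fun v hv => inj ν v 0 (by rw [hv, map_zero])) (C' * ‖x‖) (𝓝 ν) G (G ν)
      ?_ ?_ l
    · filter_upwards [hev] with μ hμ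
      exact (hGe μ hμ).2
    · intro h
      have h3 : Tendsto (fun μ => h (σ μ (A ν x))) (𝓝 ν) (𝓝 (h (σ ν (A ν x)))) :=
        (hσ.wc (A ν x) h).tendsto ν
      rw [ha ν h0] at h3
      refine h3.congr' ?_
      filter_upwards [hev] with μ hμ
      rw [ha μ hμ]
  have hd : HasDerivAt (fun μ => l (σ μ (A ν x))) (l (G ν) - l (σ ν x)) ν := by
    rw [hasDerivAt_iff_tendsto_slope]
    have h3 : Tendsto (fun μ => l (G μ) - l (σ ν x)) (𝓝[≠] ν) (𝓝 (l (G ν) - l (σ ν x))) :=
      (hweak.sub tendsto_const_nhds).mono_left nhdsWithin_le_nhds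
    refine h3.congr' ?_
    filter_upwards [self_mem_nhdsWithin, nhdsWithin_le_nhds hev] with μ hμ hμη
    have hne : μ - ν ≠ 0 := sub_ne_zero.2 hμ
    rw [slope_def_field, hmain μ hμη, map_add, map_smul, map_sub, smul_eq_mul]
    field_simp
    ring
  exact hd.differentiableAt

end Pool.Agent.R227.HBR
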