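import Pool.Agent.R402.HB.Stm

/-! HB-HOLOUT, backup copy (helper227). -/

set_option autoImplicit false

open MeasureTheory

namespace Pool.Agent.R227.HBR

open Pool.Agent.R402.HB

theorem holout_of (h1 : RectStm) (h2 : ResolvStm) : HolOutStm := by
  intro X _ _ _ hX S R σ C hC hσ a r hMO x l μ hμ
  rw [Metric.mem_closedBall, not_le] at hμ
  have hρ : 0 < dist μ a - r := by linarith
  have hcons : Complex.IsConservativeOn (fun μ => l (σ μ x)) (Metric.ball μ (dist μ a - r)) := by
    intro z w hzw
    obtain ⟨J, hJ⟩ := h1 X hX (fun μ => σ μ x) (C * ‖x‖)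
      (fun μ => ((σ μ).le_opNorm x).trans (mul_le_mul_of_nonneg_right (hσ.bd μ) (norm_nonneg _)))
      (fun l => hσ.wc x l) z w (fun _ => 1) continuousOn_const
    simp only [one_mul] at hJ
    have hJ0 : J = 0 := by
      refine hMO J ?_
      intro lam hlam
      refine h2 X hX S R σ C hC hσ x z w J hJ lam ?_
      intro hmem
      have h3 := hzw hmem
      rw [Metric.mem_ball] at h3 hlam
      have h4 := dist_triangle μ lam a
      rw [dist_comm lam μ] at h3
      linarith
    have h3 : rectInt z w (fun μ => l (σ μ x)) = 0 := by rw [← hJ l, hJ0, map_zero]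
    rw [eq_neg_iff_add_eq_zero, Complex.wedgeIntegral_add_wedgeIntegral_eq]
    exact h3
  have hd : DifferentiableOn ℂ (fun μ => l (σ μ x)) (Metric.ball μ (dist μ a - r)) :=
    (Complex.isConservativeOn_and_continuousOn_iff_isDifferentiableOn Metric.isOpen_ball).1
      ⟨hcons, (hσ.wc x l).continuousOn⟩
  exact hd.differentiableAt (Metric.ball_mem_nhds μ hρ)

end Pool.Agent.R227.HBR
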