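import Pool.Agent.R402.HB.Stm

/-! HB-LIOU, backup copy (helper227). -/

set_option autoImplicit false

open Filter Topology

namespace Pool.Agent.R227.HBR

open Pool.Agent.R402.HB

theorem liou : LiouStm := by
  intro φ C c hφ hC hlim halt
  have hd : Differentiable ℂ φ := by
    intro p
    by_contra hp
    have h1 : ∀ μ : ℂ, μ ≠ p → DifferentiableAt ℂ φ μ := by
      intro μ hμ
      have hr : 0 < dist μ p / 2 := by
        have := dist_pos.2 hμ
        linarith
      rcases halt p (dist μ p / 2) hr with h | h
      · exact absurd (h p (Metric.mem_ball_self hr)) hp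
      · refine h μ ?_
        rw [Metric.mem_closedBall]
        have := dist_pos.2 hμ
        linarith
    have h2 : DifferentiableOn ℂ φ (Set.univ \ {p}) := fun μ hμ =>
      (h1 μ (by simpa using hμ)).differentiableWithinAt
    have h3 : DifferentiableOn ℂ φ Set.univ :=
      (Complex.differentiableOn_compl_singleton_and_continuousAt_iff
        (s := Set.univ) univ_mem).1 ⟨h2, hφ.continuousAt⟩
    exact hp (h3.differentiableAt univ_mem)
  have hb : Bornology.IsBounded (Set.range φ) := by
    rw [isBounded_iff_forall_norm_le]
    refine ⟨C, ?_⟩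
    rintro _ ⟨μ, rfl⟩
    exact hC μ
  intro μ
  have hconst : φ = fun _ => φ μ := by
    funext ν
    exact hd.apply_eq_apply_of_bounded hb ν μ
  have h4 : Tendsto φ (cocompact ℂ) (𝓝 (φ μ)) := by
    rw [hconst]
    exact tendsto_const_nhds
  exact tendsto_nhds_unique h4 hlim

end Pool.Agent.R227.HBR
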