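import Pool.Agent.R402.HB.RECT

/-! HB-RESOLV, backup copy (helper227). -/

set_option autoImplicit false

open MeasureTheory

namespace Pool.Agent.R227.HBR

open Pool.Agent.R402.HB Pool.Agent.R402.HB.Rect

theorem ii {z w : ℂ} {g : ℂ → ℂ} (hg : ContinuousOn g (Complex.Rectangle z w)) (γ : ℝ → ℂ)
    (hγ : Continuous γ) (a b : ℝ) (hm : ∀ t ∈ Set.uIcc a b, γ t ∈ Complex.Rectangle z w) :
    IntervalIntegrable (fun t => g (γ t)) volume a b :=
  (hg.comp hγ.continuousOn hm).intervalIntegrable

theorem rectInt_add {z w : ℂ} {g h : ℂ → ℂ} (hg : ContinuousOn g (Complex.Rectangle z w))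
    (hh : ContinuousOn h (Complex.Rectangle z w)) :
    rectInt z w (fun μ => g μ + h μ) = rectInt z w g + rectInt z w h := by
  unfold rectInt
  rw [intervalIntegral.integral_add
      (ii hg (fun x : ℝ => (x : ℂ) + z.im * Complex.I) (by fun_prop) _ _ fun t ht => mem1 z w ht)
      (ii hh (fun x : ℝ => (x : ℂ) + z.im * Complex.I) (by fun_prop) _ _ fun t ht => mem1 z w ht),
    intervalIntegral.integral_add
      (ii hg (fun x : ℝ => (x : ℂ) + w.im * Complex.I) (by fun_prop) _ _ fun t ht => mem2 z w ht)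
      (ii hh (fun x : ℝ => (x : ℂ) + w.im * Complex.I) (by fun_prop) _ _ fun t ht => mem2 z w ht),
    intervalIntegral.integral_add
      (ii hg (fun y : ℝ => (w.re : ℂ) + y * Complex.I) (by fun_prop) _ _ fun t ht => mem3 z w ht)
      (ii hh (fun y : ℝ => (w.re : ℂ) + y * Complex.I) (by fun_prop) _ _ fun t ht => mem3 z w ht),
    intervalIntegral.integral_add
      (ii hg (fun y : ℝ => (z.re : ℂ) + y * Complex.I) (by fun_prop) _ _ fun t ht => mem4 z w ht)
      (ii hh (fun y : ℝ => (z.re : ℂ) + y * Complex.I) (by fun_prop) _ _ fun t ht => mem4 z w ht)]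
  simp only [smul_eq_mul]
  ring

theorem rectInt_congr {z w : ℂ} {g h : ℂ → ℂ}
    (heq : ∀ μ ∈ Complex.Rectangle z w, g μ = h μ) : rectInt z w g = rectInt z w h := by
  unfold rectInt
  congr 1
  · congr 1
    · congr 1
      · exact intervalIntegral.integral_congr fun t ht => heq _ (mem1 z w ht)
      · exact intervalIntegral.integral_congr fun t ht => heq _ (mem2 z w ht)
    · congr 1
      exact intervalIntegral.integral_congr fun t ht => heq _ (mem3 z w ht)
  · congr 1
    exact intervalIntegral.integral_congr fun t ht => heq _ (mem4 z w ht)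

theorem rectInt_zero {z w : ℂ} {g : ℂ → ℂ} (hg : DifferentiableOn ℂ g (Complex.Rectangle z w)) :
    rectInt z w g = 0 :=
  Complex.integral_boundary_rect_eq_zero_of_differentiableOn g z w hg

theorem resolv_of (h : RectStm) : ResolvStm := by
  intro X _ _ _ hX S R σ C hC hσ x z w J hJ lam hlam
  have hne : ∀ μ ∈ Complex.Rectangle z w, μ - lam ≠ 0 := by
    intro μ hμ h0
    rw [sub_eq_zero] at h0
    exact hlam (h0 ▸ hμ)
  obtain ⟨u, hu⟩ := h X hX (fun μ => σ μ x) (C * ‖x‖)
    (fun μ => ((σ μ).le_opNorm x).trans (mul_le_mul_of_nonneg_right (hσ.bd μ) (norm_nonneg _)))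
    (fun l => hσ.wc x l) z w (fun μ => (μ - lam)⁻¹)
    (ContinuousOn.inv₀ (by fun_prop) hne)
  refine ⟨u, ?_⟩
  rw [NormedSpace.eq_iff_forall_dual_eq ℂ]
  intro l
  have h1 := hu (l.comp (S - lam • ContinuousLinearMap.id ℂ X))
  have h2 : (l.comp (S - lam • ContinuousLinearMap.id ℂ X)) u = l (S u - lam • u) := rfl
  rw [h2] at h1
  rw [h1, hJ l]
  have hl : DifferentiableOn ℂ (fun μ : ℂ => (μ - lam)⁻¹ * l (R (S x - μ • x)))
      (Complex.Rectangle z w) := by
    refine DifferentiableOn.mul (DifferentiableOn.inv (by fun_prop) hne) ?_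
    have h3 : Differentiable ℂ fun μ : ℂ => l (R (S x - μ • x)) := by
      have h4 : (fun μ : ℂ => l (R (S x - μ • x))) = fun μ : ℂ => l (R (S x)) - μ * l (R x) := by
        funext μ
        rw [map_sub, map_smul, map_sub, map_smul, smul_eq_mul]
      rw [h4]
      fun_prop
    exact h3.differentiableOn
  have h5 : rectInt z w (fun μ => (μ - lam)⁻¹ *
      (l.comp (S - lam • ContinuousLinearMap.id ℂ X)) (σ μ x))
      = rectInt z w (fun μ => (μ - lam)⁻¹ * l (R (S x - μ • x)) + l (σ μ x)) := by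
    refine rectInt_congr fun μ hμ => ?_
    have h6 : (l.comp (S - lam • ContinuousLinearMap.id ℂ X)) (σ μ x)
        = l (R (S x - μ • x)) + (μ - lam) * l (σ μ x) := by
      have h7 : (l.comp (S - lam • ContinuousLinearMap.id ℂ X)) (σ μ x)
          = l (S (σ μ x) - lam • σ μ x) := rfl
      rw [h7, ← hσ.eq μ x]
      simp only [map_sub, map_smul, smul_eq_mul]
      ring
    rw [h6, mul_add, ← mul_assoc, inv_mul_cancel₀ (hne μ hμ), one_mul]
  rw [h5, rectInt_add hl.continuousOn (hσ.wc x l).continuousOn, rectInt_zero hl, zero_add]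

end Pool.Agent.R227.HBR
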